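import Mathlib

set_option autoImplicit false
open Pointwise

namespace Pool.Agent.Results.MP_cd64ef_nt.Counter

/-- The number of pairs `(a,b)` in `A × B` with `a + b = g`. -/
def rep {G : Type} [AddCommGroup G] [DecidableEq G] (A B : Finset G) (g : G) : ℕ :=
  ((A ×ˢ B).filter (fun p => p.1 + p.2 = g)).card

/-- The `t`-popular sumset, for `t ≥ 1`. -/
def pop {G : Type} [AddCommGroup G] [DecidableEq G] (A B : Finset G) (t : ℕ) : Finset G :=
  (A + B).filter (fun g => t ≤ rep A B g)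

/-- The stabilizer of `X`. -/
def stab {G : Type} [AddCommGroup G] [DecidableEq G] (X : Finset G) : Set G :=
  {e | X.image (fun x => e + x) = X}

theorem result : ¬ ∀ (G : Type) [AddCommGroup G] [DecidableEq G] (t : ℕ) (A B : Finset G),
    1 ≤ t → t ≤ A.card → t ≤ B.card →
    (∑ i ∈ Finset.Icc 1 t, ((pop A B i).card : ℤ)) < t * A.card + t * B.card - (t : ℤ) ^ 2 →
    ∀ s u : ℕ, 1 ≤ u → u ≤ (stab (pop A B t)).ncard → t = s * (stab (pop A B t)).ncard + u →
      (∃ A' B' : Finset G, A' ⊆ A ∧ B' ⊆ B ∧ (A \ A').card + (B \ B').card < u ∧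
        A' + B' = pop A' B' u ∧ pop A' B' u = pop A B u ∧
        stab (A' + B') = stab (pop A B t) ∧ stab (pop A' B' u) = stab (pop A B t)) ∧
      (t : ℤ) * A.card + t * B.card - (t : ℤ) ^ 2 - u * (((stab (pop A B t)).ncard : ℤ) - u) ≤
        ∑ i ∈ Finset.Icc 1 t, ((pop A B i).card : ℤ) := by
  intro h
  have hs : stab (pop ({0, 1, 3, 4} : Finset (ZMod 6)) {0, 1, 3, 4} 3) =
      (({0, 3} : Finset (ZMod 6)) : Set (ZMod 6)) := by
    ext e
    simp only [stab, Set.mem_ofPred_eq, Finset.mem_coe]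
    revert e
    decide
  have hc : (stab (pop ({0, 1, 3, 4} : Finset (ZMod 6)) {0, 1, 3, 4} 3)).ncard = 2 := by
    rw [hs, Set.ncard_coe_finset]
    decide
  obtain ⟨⟨A', B', h1, h2, h3, _, _, h4, _⟩, _⟩ := h (ZMod 6) 3 {0, 1, 3, 4} {0, 1, 3, 4}
    (by decide) (by decide) (by decide) (by decide) 1 1 le_rfl (by rw [hc]; decide) (by rw [hc])
  have hA : A' = {0, 1, 3, 4} := Finset.Subset.antisymm h1
    (Finset.sdiff_eq_empty_iff_subset.mp (Finset.card_eq_zero.mp (by omega)))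
  have hB : B' = {0, 1, 3, 4} := Finset.Subset.antisymm h2
    (Finset.sdiff_eq_empty_iff_subset.mp (Finset.card_eq_zero.mp (by omega)))
  subst hA hB
  have h5 : (1 : ZMod 6) ∈ stab (({0, 1, 3, 4} : Finset (ZMod 6)) + {0, 1, 3, 4}) := by
    simp only [stab, Set.mem_ofPred_eq]
    decide
  rw [h4, hs, Finset.mem_coe] at h5
  revert h5
  decide

end Pool.Agent.Results.MP_cd64ef_nt.Counter
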